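import Pool.Agent.Lib_MP_888b70_co.Main

/-!
# Optimal tree-decompositions with bags of treewidth at most 8 at maximum degree 4
-/

namespace Pool.Agent.Results.MP_888b70_co.OptimalLowTreewidthBags

open Pool.Agent.TW81

/-- Every finite graph of maximum degree at most 4 has an optimal tree-decomposition in which
every bag induces a subgraph of treewidth at most 8. -/
theorem result (V : Type) [Finite V] (G : SimpleGraph V)
    (hdeg : ∀ v, (G.neighborSet v).ncard ≤ 4) :
    ∃ D : TreeDecomp G, D.width = treewidth G ∧
      ∀ x, treewidth (G.induce (D.bag x : Set V)) ≤ 8 := by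
  have := Fintype.ofFinite V
  exact main hdeg

end Pool.Agent.Results.MP_888b70_co.OptimalLowTreewidthBags
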